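import Pool.Agent.Lib.MP_776403_ag.SD.LI.Spec
import Pool.Agent.Lib.MP_776403_ag.SD.Main

/-!
# LEMMA I: tangent spaces
-/

set_option autoImplicit false

open MvPolynomial

noncomputable section

namespace Pool.Agent.Lib.MP_776403_ag.SD.P2

open LI

namespace TSAux

variable {N : ℕ}

/-- The orthogonal complement for the dot product. -/
def perp (W : Submodule ℂ (Vx N)) : Submodule ℂ (Vx N) :=
  (Submodule.dualAnnihilator W).comap (dotProductEquiv ℂ (Fin (N + 1))).toLinearMap

theorem mem_perp {W : Submodule ℂ (Vx N)} {y : Vx N} : y ∈ perp W ↔ ∀ w ∈ W, dp y w = 0 := by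
  unfold perp
  rw [Submodule.mem_comap, Submodule.mem_dualAnnihilator]
  rfl

theorem finrank_perp (W : Submodule ℂ (Vx N)) :
    Module.finrank ℂ W + Module.finrank ℂ (perp W) = N + 1 := by
  have h1 := Subspace.finrank_add_finrank_dualAnnihilator_eq W
  rw [Module.finrank_fin_fun] at h1
  have h2 : Module.finrank ℂ (perp W) = Module.finrank ℂ (Submodule.dualAnnihilator W) := by
    unfold perp
    have h3 : (Submodule.dualAnnihilator W).comap
        (dotProductEquiv ℂ (Fin (N + 1))).toLinearMap =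
        (Submodule.dualAnnihilator W).map
          (dotProductEquiv ℂ (Fin (N + 1))).symm.toLinearMap :=
      Submodule.comap_equiv_eq_map_symm _ _
    rw [h3]
    exact LinearEquiv.finrank_map_eq (dotProductEquiv ℂ (Fin (N + 1))).symm _
  rw [h2]
  exact h1

theorem dp_comm (a b : Vx N) : dp a b = dp b a :=
  Finset.sum_congr rfl fun _ _ => mul_comm _ _

theorem dp_smul_left (r : ℂ) (a b : Vx N) : dp (r • a) b = r * dp a b := by
  unfold dp
  rw [Finset.mul_sum]
  refine Finset.sum_congr rfl fun i _ => ?_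
  rw [Pi.smul_apply, smul_eq_mul, mul_assoc]

theorem dp_sum_left {ι : Type*} (s : Finset ι) (a : ι → Vx N) (b : Vx N) :
    dp (∑ k ∈ s, a k) b = ∑ k ∈ s, dp (a k) b := by
  unfold dp
  rw [Finset.sum_comm]
  refine Finset.sum_congr rfl fun i _ => ?_
  rw [Finset.sum_apply, Finset.sum_mul]

/-- The values of tangent fields. -/
def TV (I : Ideal (Sx N)) (z : Vx N) : Submodule ℂ (Vx N) where
  carrier := {τ | ∃ w ∈ TF I, ∀ i, eval z (w i) = τ i}
  zero_mem' := ⟨0, fun F _ => by simp, fun i => by simp⟩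
  add_mem' := by
    rintro a b ⟨w, hw, hwa⟩ ⟨w', hw', hwb⟩
    refine ⟨w + w', fun F hF => ?_, fun i => ?_⟩
    · have h := I.add_mem (hw F hF) (hw' F hF)
      rw [← Finset.sum_add_distrib] at h
      refine (congrArg (· ∈ I) (Finset.sum_congr rfl fun i _ => ?_)).mp h
      rw [Pi.add_apply, mul_add]
    · rw [Pi.add_apply, map_add, hwa, hwb, Pi.add_apply]
  smul_mem' := by
    rintro r a ⟨w, hw, hwa⟩
    refine ⟨fun i => C r * w i, fun F hF => ?_, fun i => ?_⟩
    · have h := I.mul_mem_left (C r) (hw F hF)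
      rw [Finset.mul_sum] at h
      refine (congrArg (· ∈ I) (Finset.sum_congr rfl fun i _ => ?_)).mp h
      ring
    · rw [map_mul, eval_C, hwa, Pi.smul_apply, smul_eq_mul]

theorem mem_TS {I : Ideal (Sx N)} {z y : Vx N} : y ∈ TS I z ↔ ∀ F ∈ I, dp (grad F z) y = 0 :=
  Iff.rfl

theorem TV_le (I : Ideal (Sx N)) {z : Vx N} (hz : z ∈ zer I) : TV I z ≤ TS I z := by
  rintro τ ⟨w, hw, hwt⟩
  rw [mem_TS]
  intro F hF
  have h := hz _ (hw F hF)
  rw [map_sum] at h
  refine Eq.trans (Finset.sum_congr rfl fun i _ => ?_) h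
  rw [map_mul, hwt]
  rfl

theorem smul_le {I : Ideal (Sx N)} (hIh : IsHom I) (z : Vx N) (a : ℂ) :
    TS I z ≤ TS I (a • z) := by
  intro y hy
  rw [mem_TS] at hy ⊢
  intro F hF
  rw [← sum_homogeneousComponent F, grad_sum, dp_sum_left]
  refine Finset.sum_eq_zero fun k _ => ?_
  rw [grad_smul_form (homogeneousComponent_isHomogeneous k F), dp_smul_left,
    hy _ (hIh F hF k), mul_zero]

theorem euler {F : Sx N} {k : ℕ} (hF : F.IsHomogeneous k) (z : Vx N) :
    dp (grad F z) z = k * eval z F := by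
  have h := congrArg (eval z) hF.sum_X_mul_pderiv
  rw [map_sum, nsmul_eq_mul, map_mul, map_natCast] at h
  rw [← h]
  refine Finset.sum_congr rfl fun i _ => ?_
  rw [map_mul, eval_X, mul_comm]
  rfl

end TSAux

open TSAux

/-- `S_TS`. -/
theorem tTS : LI.S_TS := by
  intro N c I hI hIh hS z hz hz0
  obtain ⟨h1, h2, h3, h4⟩ := mPerp N c I hI hIh hS z hz hz0
  have hTS : TS I z = perp (CN I z) := by
    ext y
    rw [mem_TS, mem_perp]
    constructor
    · intro h u hu
      obtain ⟨F, hF, rfl⟩ := h3 u hu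
      rw [dp_comm]
      exact h F hF
    · intro h F hF
      rw [dp_comm]
      exact h _ (h2 F hF)
  have hdim : Module.finrank ℂ (TS I z) + c = N + 1 := by
    rw [hTS, ← h1, add_comm]
    exact finrank_perp _
  have hTV : perp (TV I z) ≤ CN I z := by
    intro u hu
    refine h4 u fun w hw _ _ => ?_
    exact mem_perp.mp hu _ ⟨w, hw, fun i => rfl⟩
  have heq : TV I z = TS I z := by
    refine Submodule.eq_of_le_of_finrank_le (TV_le I hz) ?_
    have h5 := finrank_perp (TV I z)
    have h6 := Submodule.finrank_mono hTV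
    omega
  refine ⟨hdim, ?_, ?_, ?_, ?_⟩
  · rw [mem_TS]
    intro F hF
    rw [← sum_homogeneousComponent F, grad_sum, dp_sum_left]
    refine Finset.sum_eq_zero fun k _ => ?_
    rw [euler (homogeneousComponent_isHomogeneous k F), hz _ (hIh F hF k), mul_zero]
  · intro τ hτ
    rw [← heq] at hτ
    exact hτ
  · intro a ha
    refine le_antisymm ?_ (smul_le hIh z a)
    have h5 := smul_le hIh (a • z) a⁻¹
    rwa [smul_smul, inv_mul_cancel₀ ha, one_smul] at h5
  · intro φ hφ
    refine h3 φ (hTV (mem_perp.mpr fun w hw => hφ w ?_))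
    rwa [← heq]

end Pool.Agent.Lib.MP_776403_ag.SD.P2
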