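import Pool.Agent.Lib.MP_776403_ag.SD.P2.Main
import Pool.Agent.Lib.MP_776403_ag.SD.LI.Spec

/-!
# LEMMA I: the statement `S_Pb` of `LI/Spec.lean` from `p2`
-/

set_option autoImplicit false

open MvPolynomial

noncomputable section

namespace Pool.Agent.Lib.MP_776403_ag.SD.P2

theorem two_le {N c : ℕ} {I : Ideal (Sx N)} (hc : 1 ≤ c) {x v : Vx N} (hS : Smooth I c)
    (hl : IsLine I x v) : 2 ≤ N := by
  have h1 := hl.1.fintype_card_le_finrank
  rw [Fintype.card_fin, Module.finrank_fin_fun] at h1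
  by_contra hN
  have hN1 : N = 1 := by omega
  have h2 : Submodule.span ℂ (Set.range ![x, v]) = ⊤ :=
    hl.1.span_eq_top_of_card_eq_finrank (by
      rw [Fintype.card_fin, Module.finrank_fin_fun, hN1])
  have h3 : ∀ F ∈ I, F = 0 := by
    intro F hF
    refine MvPolynomial.funext fun y => ?_
    rw [map_zero]
    have hy : y ∈ Submodule.span ℂ (Set.range ![x, v]) := h2 ▸ Submodule.mem_top
    rw [Matrix.range_cons, Matrix.range_cons, Matrix.range_empty, Set.union_empty,
      Set.singleton_union, Submodule.mem_span_pair] at hy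
    obtain ⟨s, t, rfl⟩ := hy
    exact hl.2 s t F hF
  have hx0 : x ≠ 0 := by
    intro h0
    exact hl.1.ne_zero 0 h0
  have hx : x ∈ zer I := by
    have h4 := hl.2 1 0
    rwa [one_smul, zero_smul, add_zero] at h4
  rcases hS x hx hx0 with ⟨F, f, h, e, hF, -, -, hli, -⟩
  have hc0 : 0 < c := hc
  have h5 := hli.ne_zero ⟨0, hc0⟩
  refine h5 ?_
  show grad (F ⟨0, hc0⟩) x = 0
  rw [h3 _ (hF ⟨0, hc0⟩).1]
  funext i
  show eval x (pderiv i (0 : Sx N)) = 0
  rw [map_zero, map_zero]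

theorem dp_grad {N : ℕ} (F : Sx N) (z y : Vx N) : LI.dp (grad F z) y = eval z (DD y F) := by
  rw [eval_DD]
  exact Finset.sum_congr rfl fun i _ => mul_comm _ _

/-- `S_Pb`. -/
theorem tPb : LI.S_Pb := by
  intro N c I hc hI hIh hnd hS hcov g hg
  obtain ⟨y, hy, hy0, -⟩ := exists_pt hI hIh hnd hg
  obtain ⟨v0, hv0⟩ := hcov y hy hy0
  have hN : 2 ≤ N := two_le (by omega) hS hv0
  have h1 : (1 : Sx N) ∉ I := fun h => hI.ne_top (I.eq_top_iff_one.mpr h)
  obtain ⟨x, hx, hx0, hxg, v, hl, F, hF, G, hG, hne⟩ := p2 N c I hc hN hI hIh hnd hS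
    ⟨1, h1, fun x hx hx0 _ => hcov x hx hx0⟩ g hg
  obtain ⟨z, hz, hz0, hze⟩ := exists_pt hI hIh hnd hne
  refine ⟨x, v, hl, hxg, z, hz, hz0, fun a ha => ?_⟩
  have h2 : ∀ F ∈ I, a 0 * eval z (DD x F) + a 1 * eval z (DD v F) = 0 := by
    intro F hF
    have h3 := ha F hF
    rw [dp_grad, Fin.sum_univ_two] at h3
    have h4 : eval z (DD (a 0 • x + a 1 • v) F) = 0 := h3
    rwa [DD_lin, map_add, map_mul, map_mul, eval_C, eval_C] at h4
  have e1 := h2 F hF
  have e2 := h2 G hG
  rw [map_sub, map_mul, map_mul] at hze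
  have h5 : a 0 = 0 := by
    have : a 0 * (eval z (DD x F) * eval z (DD v G) - eval z (DD x G) * eval z (DD v F)) = 0 := by
      linear_combination (eval z (DD v G)) * e1 - (eval z (DD v F)) * e2
    exact (mul_eq_zero.mp this).resolve_right hze
  have h6 : a 1 = 0 := by
    have : a 1 * (eval z (DD x F) * eval z (DD v G) - eval z (DD x G) * eval z (DD v F)) = 0 := by
      linear_combination (eval z (DD x F)) * e2 - (eval z (DD x G)) * e1
    exact (mul_eq_zero.mp this).resolve_right hze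
  funext i
  fin_cases i
  · exact h5
  · exact h6

end Pool.Agent.Lib.MP_776403_ag.SD.P2
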