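import Pool.Agent.Lib.MP_776403_ag.SD.LI.Spec

/-!
# LEMMA I: division by the relation
-/

set_option autoImplicit false

open MvPolynomial

noncomputable section

namespace Pool.Agent.Lib.MP_776403_ag.SD.P2

namespace DivAux

variable {n : ℕ}

/-- The evaluation at `t`, `l`. -/
def ev (t : ℂ) (l : Fin n → ℂ) : MvPolynomial (Fin n) (Polynomial ℂ) →+* ℂ :=
  eval₂Hom (Polynomial.evalRingHom t) l

theorem ev_C (t : ℂ) (l : Fin n → ℂ) (p : Polynomial ℂ) : ev t l (C p) = p.eval t := by
  unfold ev
  rw [coe_eval₂Hom, eval₂_C]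
  rfl

theorem ev_X (t : ℂ) (l : Fin n → ℂ) (i : Fin n) : ev t l (X i) = l i := by
  unfold ev
  rw [coe_eval₂Hom, eval₂_X]

theorem zero_of_ev {F : MvPolynomial (Fin n) (Polynomial ℂ)} (h : ∀ t l, ev t l F = 0) :
    F = 0 := by
  ext1 α
  rw [coeff_zero]
  refine Polynomial.funext fun t => ?_
  have h1 : map (Polynomial.evalRingHom t) F = 0 := by
    refine MvPolynomial.funext fun l => ?_
    rw [eval_map, map_zero]
    exact h t l
  have h2 := congrArg (coeff α) h1
  rw [coeff_map, coeff_zero] at h2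
  rw [Polynomial.eval_zero]
  exact h2

theorem ev_option (t : ℂ) (l : Fin n → ℂ) (l₀ : ℂ)
    (S : MvPolynomial (Option (Fin n)) (Polynomial ℂ)) :
    eval₂ (Polynomial.evalRingHom t) (fun o : Option (Fin n) => o.elim l₀ l) S =
      ((optionEquivLeft (Polynomial ℂ) (Fin n) S).map (ev t l)).eval l₀ := by
  induction S using MvPolynomial.induction_on with
  | C a =>
    rw [optionEquivLeft_C, eval₂_C, Polynomial.map_C, Polynomial.eval_C, ev_C]
    rfl
  | add p q hp hq =>
    rw [eval₂_add, hp, hq, map_add, Polynomial.map_add, Polynomial.eval_add]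
  | mul_X p i hp =>
    rw [eval₂_mul, hp, eval₂_X, map_mul, Polynomial.map_mul, Polynomial.eval_mul]
    congr 1
    rcases i with _ | i
    · rw [optionEquivLeft_X_none, Polynomial.map_X, Polynomial.eval_X]
      rfl
    · rw [optionEquivLeft_X_some, Polynomial.map_C, Polynomial.eval_C, ev_X]
      rfl

theorem strip {B : MvPolynomial (Fin n) (Polynomial ℂ)} (J : ℕ) (s : Multiset ℂ)
    (hs : ∀ r ∈ s, ¬ (C (Polynomial.X - Polynomial.C r) : MvPolynomial (Fin n) (Polynomial ℂ)) ∣ B) :
    ∀ T : MvPolynomial (Fin n) (Polynomial ℂ),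
      C (s.map fun r => Polynomial.X - Polynomial.C r).prod ∣ T * B ^ J →
      C (s.map fun r => Polynomial.X - Polynomial.C r).prod ∣ T := by
  induction s using Multiset.induction_on with
  | empty =>
    intro T _
    rw [Multiset.map_zero, Multiset.prod_zero, C_1]
    exact one_dvd _
  | cons r s ih =>
    intro T hT
    rw [Multiset.map_cons, Multiset.prod_cons, C_mul] at hT ⊢
    have hp : Prime (C (Polynomial.X - Polynomial.C r) : MvPolynomial (Fin n) (Polynomial ℂ)) :=
      (MvPolynomial.prime_C_iff _).mpr (Polynomial.prime_X_sub_C r)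
    have h1 : (C (Polynomial.X - Polynomial.C r) : MvPolynomial (Fin n) (Polynomial ℂ)) ∣ T := by
      rcases hp.dvd_or_dvd ((dvd_mul_right _ _).trans hT) with h | h
      · exact h
      · exact absurd (hp.dvd_of_dvd_pow h) (hs r (Multiset.mem_cons_self r s))
    obtain ⟨T', rfl⟩ := h1
    refine mul_dvd_mul_left _ (ih (fun r' hr' => hs r' (Multiset.mem_cons_of_mem hr')) T' ?_)
    rw [mul_assoc] at hT
    exact (mul_dvd_mul_iff_left hp.ne_zero).mp hT

end DivAux

open DivAux

/-- `S_Div`. -/
theorem tDiv : LI.S_Div := by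
  intro n δ ρ ρ₀ hmon hdeg hne S hco hS
  by_contra hS0
  set P := optionEquivLeft (Polynomial ℂ) (Fin n) S with hPd
  have hP0 : P ≠ 0 := by
    intro h
    exact hS0 ((optionEquivLeft (Polynomial ℂ) (Fin n)).injective (by rw [← hPd, h, map_zero]))
  set J := P.natDegree with hJ
  have hlc : P.coeff J ≠ 0 := by
    rw [hJ]
    exact Polynomial.leadingCoeff_ne_zero.mpr hP0
  set B : MvPolynomial (Fin n) (Polynomial ℂ) := ∑ i, C (ρ i) * X i with hB
  have hBe : ∀ t l, ev t l B = ∑ i, (ρ i).eval t * l i := by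
    intro t l
    rw [hB, map_sum]
    refine Finset.sum_congr rfl fun i _ => ?_
    rw [map_mul, ev_C, ev_X]
  set Q : MvPolynomial (Fin n) (Polynomial ℂ) :=
    ∑ j ∈ Finset.range (J + 1), C ρ₀ ^ (J - j) * P.coeff j * (-B) ^ j with hQ
  have hρ0 : ρ₀ ≠ 0 := hmon.ne_zero
  have hQ0 : Q = 0 := by
    have h1 : C ρ₀ * Q = 0 := by
      refine zero_of_ev fun t l => ?_
      rw [map_mul, ev_C]
      by_cases ht : ρ₀.eval t = 0
      · rw [ht, zero_mul]
      · have h2 := hS t l (-(∑ i, (ρ i).eval t * l i) / ρ₀.eval t) (by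
          rw [mul_div_cancel₀ _ ht]
          ring)
        rw [ev_option, ← hPd, Polynomial.eval_eq_sum_range' (n := J + 1)
          (lt_of_le_of_lt Polynomial.natDegree_map_le (Nat.lt_succ_self _))] at h2
        have h3 : ev t l Q = ρ₀.eval t ^ J * ∑ j ∈ Finset.range (J + 1),
            (P.map (ev t l)).coeff j * (-(∑ i, (ρ i).eval t * l i) / ρ₀.eval t) ^ j := by
          rw [hQ, map_sum, Finset.mul_sum]
          refine Finset.sum_congr rfl fun j hj => ?_
          have hj' : j ≤ J := Nat.lt_succ_iff.mp (Finset.mem_range.mp hj)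
          rw [map_mul, map_mul, map_pow, map_pow, map_neg, ev_C, hBe, Polynomial.coeff_map, div_pow,
            ← pow_sub_mul_pow (ρ₀.eval t) hj']
          field_simp
        rw [h3, h2, mul_zero, mul_zero]
    exact (mul_eq_zero.mp h1).resolve_left fun h => hρ0 (C_injective _ _ (by rw [h, C_0]))
  -- `C ρ₀` divides the leading coefficient
  have hdvd : (C ρ₀ : MvPolynomial (Fin n) (Polynomial ℂ)) ∣ P.coeff J * B ^ J := by
    rw [hQ, Finset.sum_range_succ, Nat.sub_self, pow_zero, one_mul] at hQ0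
    have h1 : (C ρ₀ : MvPolynomial (Fin n) (Polynomial ℂ)) ∣
        ∑ j ∈ Finset.range J, C ρ₀ ^ (J - j) * P.coeff j * (-B) ^ j := by
      refine Finset.dvd_sum fun j hj => ?_
      have hj' : J - j ≠ 0 := by
        have := Finset.mem_range.mp hj
        omega
      exact Dvd.dvd.mul_right (Dvd.dvd.mul_right (dvd_pow_self _ hj') _) _
    have h2 : P.coeff J * (-B) ^ J =
        -∑ j ∈ Finset.range J, C ρ₀ ^ (J - j) * P.coeff j * (-B) ^ j := by
      linear_combination hQ0
    have h3 : (C ρ₀ : MvPolynomial (Fin n) (Polynomial ℂ)) ∣ P.coeff J * (-B) ^ J := by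
      rw [h2]
      exact (dvd_neg).mpr h1
    rcases Nat.even_or_odd J with h | h
    · have e : (-B) ^ J = B ^ J := h.neg_pow B
      rwa [e] at h3
    · have e : (-B) ^ J = -B ^ J := h.neg_pow B
      have e2 : P.coeff J * (-B) ^ J = -(P.coeff J * B ^ J) := by
        rw [e]
        ring
      rw [e2] at h3
      exact (dvd_neg).mp h3
  have hroots : (ρ₀.roots.map fun r => Polynomial.X - Polynomial.C r).prod = ρ₀ := by
    have h1 := (IsAlgClosed.splits ρ₀).eq_prod_roots
    rw [hmon.leadingCoeff, Polynomial.C_1, one_mul] at h1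
    exact h1.symm
  have hlead : (C ρ₀ : MvPolynomial (Fin n) (Polynomial ℂ)) ∣ P.coeff J := by
    have h1 := strip (B := B) J ρ₀.roots (fun r hr hd => ?_) (P.coeff J)
    · rw [hroots] at h1
      exact h1 hdvd
    · have hr0 : ρ₀.eval r = 0 := (Polynomial.mem_roots hρ0).mp hr
      rcases hne r with h | ⟨i, hi⟩
      · exact h hr0
      · rw [C_dvd_iff_dvd_coeff] at hd
        have h2 := hd (Finsupp.single i 1)
        have h3 : coeff (Finsupp.single i 1) B = ρ i := by
          rw [hB, coeff_sum, Finset.sum_eq_single i]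
          · rw [coeff_C_mul, coeff_X, if_pos rfl, mul_one]
          · intro b _ hb
            rw [coeff_C_mul, coeff_X, if_neg, mul_zero]
            intro h
            exact hb (Finsupp.single_left_injective one_ne_zero h)
          · exact fun h => absurd (Finset.mem_univ i) h
        rw [h3, Polynomial.dvd_iff_isRoot] at h2
        exact hi h2
  have hJ1 : 1 ≤ J := by
    by_contra h
    have h0 : J = 0 := by omega
    rw [hQ, h0, Finset.sum_range_succ, Finset.sum_range_zero, zero_add, Nat.sub_self, pow_zero,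
      one_mul, pow_zero, mul_one] at hQ0
    rw [h0] at hlc
    exact hlc hQ0
  obtain ⟨β, hβ⟩ := MvPolynomial.ne_zero_iff.mp hlc
  have h4 : coeff β (P.coeff J) = coeff (β.optionElim J) S := by
    rw [← optionEquivLeft_coeff_some_coeff_none]
    simp [hPd]
  rw [h4] at hβ
  have h5 : (β.optionElim J) ∈ S.support := mem_support_iff.mpr hβ
  rcases hco _ h5 with h6 | h6
  · rw [Finsupp.optionElim_apply_none] at h6
    omega
  · have h7 := (C_dvd_iff_dvd_coeff _ _).mp hlead β
    rw [h4] at h7
    exact hβ (Polynomial.eq_zero_of_dvd_of_natDegree_lt h7 (by rw [hdeg]; exact h6))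

end Pool.Agent.Lib.MP_776403_ag.SD.P2
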