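import Pool.Agent.Lib.MP_776403_ag.SD.Bas
import Pool.Agent.Lib.MP_776403_ag.SD.Null

/-!
# LEMMA I, part P2: directional derivatives; there are no cones
-/

set_option autoImplicit false

open MvPolynomial

noncomputable section

namespace Pool.Agent.Lib.MP_776403_ag.SD.P2

variable {N : ℕ}

/-- The derivative in the direction `v`. -/
def DD (v : Vx N) : Derivation ℂ (Sx N) (Sx N) := MvPolynomial.mkDerivation ℂ (fun i => C (v i))

theorem DD_X (v : Vx N) (i : Fin (N + 1)) : DD v (X i) = C (v i) :=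
  mkDerivation_X ℂ _ i

theorem DD_C (v : Vx N) (a : ℂ) : DD v (C a) = 0 := (DD v).map_algebraMap a

theorem DD_eq (v : Vx N) (F : Sx N) : DD v F = ∑ i, C (v i) * pderiv i F := by
  induction F using MvPolynomial.induction_on with
  | C a =>
    rw [DD_C]
    refine (Finset.sum_eq_zero fun i _ => ?_).symm
    rw [pderiv_C, mul_zero]
  | add p q hp hq =>
    rw [map_add, hp, hq, ← Finset.sum_add_distrib]
    refine Finset.sum_congr rfl fun i _ => ?_
    rw [map_add, mul_add]
  | mul_X p j hp =>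
    rw [Derivation.leibniz, hp, DD_X, smul_eq_mul, smul_eq_mul]
    have h : ∀ i, C (v i) * pderiv i (p * X j) =
        X j * (C (v i) * pderiv i p) + p * (C (v i) * pderiv i (X j : Sx N)) := by
      intro i
      rw [Derivation.leibniz, smul_eq_mul, smul_eq_mul]
      ring
    rw [Finset.sum_congr rfl fun i _ => h i, Finset.sum_add_distrib, ← Finset.mul_sum,
      ← Finset.mul_sum]
    rw [Finset.sum_eq_single j (f := fun i => C (v i) * pderiv i (X j : Sx N))]
    · rw [pderiv_X_self, mul_one, add_comm]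
    · intro b _ hb
      rw [pderiv_X_of_ne hb.symm, mul_zero]
    · exact fun h => absurd (Finset.mem_univ j) h

theorem eval_DD (v z : Vx N) (F : Sx N) : eval z (DD v F) = ∑ i, v i * grad F z i := by
  rw [DD_eq, map_sum]
  refine Finset.sum_congr rfl fun i _ => ?_
  rw [map_mul, eval_C]
  rfl

theorem DD_comm (v w : Vx N) (F : Sx N) : DD v (DD w F) = DD w (DD v F) := by
  have h : ⁅DD v, DD w⁆ = 0 := by
    refine derivation_ext fun i => ?_
    rw [Derivation.commutator_apply, DD_X, DD_X, DD_C, DD_C, sub_self]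
    rfl
  have h2 := congrArg (fun d : Derivation ℂ (Sx N) (Sx N) => d F) h
  simp only [Derivation.commutator_apply, Derivation.coe_zero, Pi.zero_apply] at h2
  exact sub_eq_zero.mp h2

theorem DD_pderiv (v : Vx N) (i : Fin (N + 1)) (F : Sx N) :
    DD v (pderiv i F) = pderiv i (DD v F) := by
  have h : ⁅DD v, (pderiv i : Derivation ℂ (Sx N) (Sx N))⁆ = 0 := by
    refine derivation_ext fun j => ?_
    rw [Derivation.commutator_apply, DD_X, pderiv_C]
    classical
    rw [pderiv_X]
    rcases eq_or_ne j i with h | h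
    · subst h
      rw [Pi.single_eq_same, Derivation.map_one_eq_zero, sub_self]
      rfl
    · rw [Pi.single_eq_of_ne h, map_zero, sub_self]
      rfl
  have h2 := congrArg (fun d : Derivation ℂ (Sx N) (Sx N) => d F) h
  simp only [Derivation.commutator_apply, Derivation.coe_zero, Pi.zero_apply] at h2
  exact sub_eq_zero.mp h2

theorem DD_lin (a b : ℂ) (v w : Vx N) (F : Sx N) :
    DD (a • v + b • w) F = C a * DD v F + C b * DD w F := by
  rw [DD_eq, DD_eq, DD_eq, Finset.mul_sum, Finset.mul_sum, ← Finset.sum_add_distrib]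
  refine Finset.sum_congr rfl fun i _ => ?_
  rw [Pi.add_apply, Pi.smul_apply, Pi.smul_apply, smul_eq_mul, smul_eq_mul, map_add, map_mul,
    map_mul]
  ring

theorem DD_hom (v : Vx N) {F : Sx N} {k : ℕ} (hF : F.IsHomogeneous (k + 1)) :
    (DD v F).IsHomogeneous k := by
  rw [DD_eq]
  refine (homogeneousSubmodule (Fin (N + 1)) ℂ k).sum_mem fun i _ => ?_
  show IsHomogeneous _ _
  have h := (isHomogeneous_C (Fin (N + 1)) (v i)).mul (hF.pderiv (i := i))
  rw [Nat.add_sub_cancel, zero_add] at h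
  exact h

/-- The iterated derivative of a form. -/
theorem DD_iter (v : Vx N) (k : ℕ) : ∀ F : Sx N, F.IsHomogeneous k →
    (fun G => DD v G)^[k] F = C ((k.factorial : ℂ) * eval v F) := by
  induction k with
  | zero =>
    intro F hF
    rw [Function.iterate_zero, id_eq, Nat.factorial_zero, Nat.cast_one, one_mul]
    have h := hF.totalDegree_le
    rw [Nat.le_zero] at h
    rw [totalDegree_eq_zero_iff_eq_C] at h
    rw [h, eval_C]
  | succ k ih =>
    intro F hF
    rw [Function.iterate_succ_apply, ih _ (DD_hom v hF), eval_DD]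
    congr 1
    have h := congrArg (eval v) hF.sum_X_mul_pderiv
    rw [map_sum] at h
    simp only [map_mul, eval_X, nsmul_eq_mul, map_natCast] at h
    rw [Nat.factorial_succ]
    have h2 : ∑ i, v i * grad F v i = ((k + 1 : ℕ) : ℂ) * eval v F := h
    rw [h2]
    push_cast
    ring

/-- `T_z X` contains `v` modulo `x` for all `z`. -/
def Rel (I : Ideal (Sx N)) (x v : Vx N) : Prop :=
  ∀ F ∈ I, ∀ G ∈ I, DD x F * DD v G - DD x G * DD v F ∈ I

theorem mem_iter {I : Ideal (Sx N)} {w : Vx N} (h : ∀ G ∈ I, DD w G ∈ I) (k : ℕ) :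
    ∀ G ∈ I, (fun G => DD w G)^[k] G ∈ I := by
  induction k with
  | zero => exact fun G hG => hG
  | succ k ih =>
    intro G hG
    rw [Function.iterate_succ_apply]
    exact ih _ (h G hG)

theorem iter_hom (w : Vx N) (k : ℕ) : ∀ (F : Sx N) (m : ℕ), F.IsHomogeneous (m + k) →
    ((fun G => DD w G)^[k] F).IsHomogeneous m := by
  induction k with
  | zero => exact fun F m hF => hF
  | succ k ih =>
    intro F m hF
    rw [Function.iterate_succ_apply]
    exact ih _ m (DD_hom w hF)

theorem iter_pderiv (w : Vx N) (i : Fin (N + 1)) (k : ℕ) : ∀ F : Sx N,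
    (fun G => DD w G)^[k] (pderiv i F) = pderiv i ((fun G => DD w G)^[k] F) := by
  induction k with
  | zero => exact fun F => rfl
  | succ k ih =>
    intro F
    rw [Function.iterate_succ_apply, Function.iterate_succ_apply, DD_pderiv, ih]

theorem C_mem {I : Ideal (Sx N)} (hI : I.IsPrime) {a : ℂ} (h : C a ∈ I) : a = 0 := by
  by_contra hne
  refine hI.ne_top (I.eq_top_iff_one.mpr ?_)
  have h2 := I.mul_mem_left (C a⁻¹) h
  rwa [← C_mul, inv_mul_cancel₀ hne, C_1] at h2

theorem grad_zero_of {I : Ideal (Sx N)} (hnd : ∀ F ∈ I, F.IsHomogeneous 1 → F = 0) {w : Vx N}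
    (h : ∀ G ∈ I, DD w G ∈ I) (k : ℕ) (G : Sx N) (hG : G ∈ I) (hGk : G.IsHomogeneous k)
    (i : Fin (N + 1)) : grad G w i = 0 := by
  rcases k with _ | k
  · have h1 := hGk.totalDegree_le
    rw [Nat.le_zero, totalDegree_eq_zero_iff_eq_C] at h1
    show eval w (pderiv i G) = 0
    rw [h1, pderiv_C, map_zero]
  · have h1 : (pderiv i G).IsHomogeneous k := hGk.pderiv
    have h2 := DD_iter w k _ h1
    have h3 : (fun G => DD w G)^[k] G = 0 := by
      refine hnd _ (mem_iter h k G hG) (iter_hom w k G 1 ?_)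
      have h4 : k + 1 = 1 + k := Nat.add_comm k 1
      exact h4 ▸ hGk
    rw [iter_pderiv, h3, map_zero] at h2
    have h4 : (0 : ℂ) = (k.factorial : ℂ) * eval w (pderiv i G) := by
      apply C_injective (Fin (N + 1)) ℂ
      rw [← h2, C_0]
    have h5 : (k.factorial : ℂ) ≠ 0 := Nat.cast_ne_zero.mpr (Nat.factorial_ne_zero k)
    rcases mul_eq_zero.mp h4.symm with h6 | h6
    · exact absurd h6 h5
    · exact h6

theorem eval_zero_of {I : Ideal (Sx N)} (hI : I.IsPrime)
    (hnd : ∀ F ∈ I, F.IsHomogeneous 1 → F = 0) {w : Vx N}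
    (h : ∀ G ∈ I, DD w G ∈ I) (k : ℕ) (G : Sx N) (hG : G ∈ I) (hGk : G.IsHomogeneous k) :
    eval w G = 0 := by
  rcases k with _ | k
  · have h1 := hGk.totalDegree_le
    rw [Nat.le_zero, totalDegree_eq_zero_iff_eq_C] at h1
    rw [h1] at hG ⊢
    rw [C_mem hI hG, eval_C]
  · have h2 := congrArg (eval w) hGk.sum_X_mul_pderiv
    rw [map_sum, Finset.sum_eq_zero] at h2
    · rw [nsmul_eq_mul, map_mul, map_natCast] at h2
      rcases mul_eq_zero.mp h2.symm with h3 | h3
      · exact absurd h3 (Nat.cast_ne_zero.mpr (Nat.succ_ne_zero k))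
      · exact h3
    · intro i _
      have h3 : eval w (pderiv i G) = 0 := grad_zero_of hnd h _ G hG hGk i
      rw [map_mul, h3, mul_zero]

/-- A nondegenerate smooth `X` of codimension `≥ 1` is not a cone. -/
theorem no_cone {c : ℕ} {I : Ideal (Sx N)} (hc : 1 ≤ c) (hI : I.IsPrime) (hIh : IsHom I)
    (hnd : ∀ F ∈ I, F.IsHomogeneous 1 → F = 0) (hS : Smooth I c) {w : Vx N} (hw : w ≠ 0)
    (h : ∀ G ∈ I, DD w G ∈ I) : False := by
  have hwX : w ∈ zer I := by
    intro F hF
    have h1 := congrArg (eval w) (sum_homogeneousComponent F)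
    rw [← h1, map_sum]
    refine Finset.sum_eq_zero fun k _ => ?_
    exact eval_zero_of hI hnd h k _ (hIh F hF k) (homogeneousComponent_isHomogeneous k F)
  rcases hS w hwX hw with ⟨F, f, g, e, hF, -, -, hli, -⟩
  have hc0 : 0 < c := hc
  have h3 : ∀ i, grad (F ⟨0, hc0⟩) w i = 0 := fun i =>
    grad_zero_of hnd h (f ⟨0, hc0⟩) (F ⟨0, hc0⟩) (hF ⟨0, hc0⟩).1 (hF ⟨0, hc0⟩).2 i
  have h4 : grad (F ⟨0, hc0⟩) w = 0 := funext h3
  have h5 := hli.ne_zero ⟨0, hc0⟩
  exact h5 h4

end Pool.Agent.Lib.MP_776403_ag.SD.P2
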