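import Pool.Agent.Lib.MP_776403_ag.SD.P2.Hs
import Pool.Agent.Lib.MP_776403_ag.SD.G.GReg

/-!
# LEMMA I, part P2: the lines through general points
-/

set_option autoImplicit false

open MvPolynomial

noncomputable section

namespace Pool.Agent.Lib.MP_776403_ag.SD.P2

variable {N : ℕ}

/-- The iterated derivative in the direction of the field `p v - q x`, `p` and `q` constant. -/
def hk (p q : Sx N) (x v : Vx N) : ℕ → Sx N → Sx N
  | 0, G => G
  | k + 1, G => p * hk p q x v k (DD v G) - q * hk p q x v k (DD x G)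

theorem hk_zero (p q : Sx N) (x v : Vx N) (G : Sx N) : hk p q x v 0 G = G := rfl

theorem hk_succ (p q : Sx N) (x v : Vx N) (k : ℕ) (G : Sx N) :
    hk p q x v (k + 1) G = p * hk p q x v k (DD v G) - q * hk p q x v k (DD x G) := rfl

theorem hk_rec {I : Ideal (Sx N)} {p q : Sx N} {x v : Vx N}
    (hmu : (p * DD v p - q * DD x p) * q - (p * DD v q - q * DD x q) * p ∈ I) (k : ℕ) :
    ∀ G : Sx N, p * (p * DD v (hk p q x v k G) - q * DD x (hk p q x v k G)) -
      (p * hk p q x v (k + 1) G + (k : Sx N) * (p * DD v p - q * DD x p) * hk p q x v k G) ∈ I := by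
  induction k with
  | zero =>
    intro G
    rw [hk_succ, hk_zero, hk_zero, hk_zero, Nat.cast_zero, zero_mul, zero_mul, add_zero, sub_self]
    exact I.zero_mem
  | succ k ih =>
    intro G
    have h1 := ih (DD v G)
    have h2 := ih (DD x G)
    rw [hk_succ p q x v (k + 1) G, hk_succ p q x v k G]
    rw [← Ideal.Quotient.eq_zero_iff_mem] at h1 h2 hmu ⊢
    simp only [map_sub, map_add, map_mul, DD_mul, Nat.cast_succ, map_natCast, map_one]
      at h1 h2 hmu ⊢
    linear_combination (Ideal.Quotient.mk I p) * h1 - (Ideal.Quotient.mk I q) * h2 +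
      (Ideal.Quotient.mk I (hk p q x v k (DD x G))) * hmu

/-- `W(μ) = 0`. -/
theorem mu_const {I : Ideal (Sx N)} {x v : Vx N} (hR : Rel I x v) {F0 : Sx N}
    (hF0 : F0 ∈ I) (hH : Hs F0 (ww F0 x v) (ww F0 x v) ∈ I) :
    (DD x F0 * DD v (DD x F0) - DD v F0 * DD x (DD x F0)) * DD v F0 -
      (DD x F0 * DD v (DD v F0) - DD v F0 * DD x (DD v F0)) * DD x F0 ∈ I := by
  have h1 := rel_tan hR hF0 hF0
  have h3 := rel_tan hR hF0 h1
  rw [Hs_ww] at hH
  rw [← Ideal.Quotient.eq_zero_iff_mem] at h3 hH ⊢
  simp only [map_sub, map_add, map_mul, DD_mul] at h3 hH ⊢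
  linear_combination h3 - hH

theorem hk_mem {I : Ideal (Sx N)} (hI : I.IsPrime) {x v : Vx N} (hR : Rel I x v) {F0 : Sx N}
    (hF0 : F0 ∈ I) (hp : DD x F0 ∉ I) (hH : Hs F0 (ww F0 x v) (ww F0 x v) ∈ I) (k : ℕ) :
    ∀ G ∈ I, hk (DD x F0) (DD v F0) x v k G ∈ I := by
  induction k with
  | zero => exact fun G hG => hG
  | succ k ih =>
    intro G hG
    have h1 := hk_rec (mu_const hR hF0 hH) k G
    have h2 := ih G hG
    have h3 := rel_tan hR hF0 h2
    refine mul_mem_cancel hI hp ?_
    rw [← Ideal.Quotient.eq_zero_iff_mem] at h1 h2 h3 ⊢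
    simp only [map_sub, map_add, map_mul] at h1 h2 h3 ⊢
    linear_combination (Ideal.Quotient.mk I (DD x F0)) * h3 - h1 -
      (Ideal.Quotient.mk I (k : Sx N)) * (Ideal.Quotient.mk I (DD x F0) *
        Ideal.Quotient.mk I (DD v (DD x F0)) - Ideal.Quotient.mk I (DD v F0) *
        Ideal.Quotient.mk I (DD x (DD x F0))) * h2

theorem iter_lin (w : Vx N) (a b : ℂ) (k : ℕ) : ∀ P Q : Sx N,
    (fun G => DD w G)^[k] (C a * P + C b * Q) =
      C a * (fun G => DD w G)^[k] P + C b * (fun G => DD w G)^[k] Q := by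
  induction k with
  | zero => exact fun P Q => rfl
  | succ k ih =>
    intro P Q
    rw [Function.iterate_succ_apply, Function.iterate_succ_apply, Function.iterate_succ_apply]
    have h : DD w (C a * P + C b * Q) = C a * DD w P + C b * DD w Q := by
      rw [map_add, DD_mul, DD_mul, DD_C, DD_C]
      ring
    rw [h, ih]

theorem eval_hk (p q : Sx N) (x v z : Vx N) (k : ℕ) : ∀ G : Sx N,
    eval z (hk p q x v k G) =
      eval z ((fun G => DD ((eval z p) • v + (-eval z q) • x) G)^[k] G) := by
  induction k with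
  | zero => exact fun G => rfl
  | succ k ih =>
    intro G
    rw [hk_succ, Function.iterate_succ_apply, DD_lin, iter_lin, map_sub, map_mul, map_mul, ih, ih,
      map_add, map_mul, map_mul, eval_C, eval_C]
    ring

theorem derivative_lin (z w : Vx N) (G : Sx N) :
    Polynomial.derivative (lin z w G) = lin z w (DD w G) := by
  have hX : ∀ i : Fin (N + 1), lin z w (X i) =
      Polynomial.C (z i) + Polynomial.C (w i) * Polynomial.X := fun i => by
    unfold lin
    rw [aeval_X]
  have hC : ∀ a : ℂ, lin z w (C a) = Polynomial.C a := fun a => by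
    unfold lin
    rw [aeval_C]
    rfl
  induction G using MvPolynomial.induction_on with
  | C a => rw [DD_C, map_zero, hC, Polynomial.derivative_C]
  | add p q hp hq => rw [map_add, map_add, map_add, map_add, hp, hq]
  | mul_X p j hp =>
    rw [DD_mul, DD_X, map_mul (lin z w) p (X j), map_add, map_mul (lin z w) p (C (w j)),
      map_mul (lin z w) (X j) (DD w p), Polynomial.derivative_mul, hp, hX, hC]
    simp only [Polynomial.derivative_add, Polynomial.derivative_mul, Polynomial.derivative_C,
      Polynomial.derivative_X, zero_mul, zero_add, mul_one]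
    ring

theorem iterate_derivative_lin (z w : Vx N) (k : ℕ) : ∀ G : Sx N,
    Polynomial.derivative^[k] (lin z w G) = lin z w ((fun G => DD w G)^[k] G) := by
  induction k with
  | zero => exact fun G => rfl
  | succ k ih =>
    intro G
    rw [Function.iterate_succ_apply, Function.iterate_succ_apply, derivative_lin, ih]

theorem lin_zero_of {z w : Vx N} {G : Sx N}
    (h : ∀ k, eval z ((fun G => DD w G)^[k] G) = 0) : lin z w G = 0 := by
  ext k
  have h1 := Polynomial.coeff_iterate_derivative (k := k) (lin z w G) 0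
  rw [iterate_derivative_lin] at h1
  have h2 : (lin z w ((fun G => DD w G)^[k] G)).coeff 0 = 0 := by
    have h3 := lin_eval z w ((fun G => DD w G)^[k] G) 0
    rw [zero_smul, add_zero, h k] at h3
    rw [Polynomial.coeff_zero_eq_eval_zero]
    exact h3
  rw [h2, zero_add, Nat.descFactorial_self, nsmul_eq_mul] at h1
  rcases mul_eq_zero.mp h1.symm with h3 | h3
  · exact absurd h3 (Nat.cast_ne_zero.mpr (Nat.factorial_ne_zero k))
  · rw [h3, Polynomial.coeff_zero]

/-- The line through `z` in the direction `w` is in `X`. -/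
theorem isLine_of {I : Ideal (Sx N)} (hIh : IsHom I) {z w : Vx N}
    (hli : LinearIndependent ℂ ![z, w])
    (h : ∀ G ∈ I, ∀ k, eval z ((fun G => DD w G)^[k] G) = 0) : IsLine I z w := by
  have h1 : ∀ t : ℂ, z + t • w ∈ zer I := by
    intro t F hF
    rw [← lin_eval, lin_zero_of (h F hF), Polynomial.eval_zero]
  have h2 : ∀ s t : ℂ, s ≠ 0 → s • z + t • w ∈ zer I := by
    intro s t hs
    have h3 : s • z + t • w = s • (z + (t / s) • w) := by
      rw [smul_add, smul_smul, mul_div_cancel₀ _ hs]
    rw [h3]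
    exact GRegAux.smul_zer hIh (h1 _) s
  refine ⟨hli, fun s t F hF => ?_⟩
  have h3 : lin (t • w) z F = 0 := by
    refine Polynomial.eq_zero_of_infinite_isRoot _ ?_
    refine Set.Infinite.mono (s := {0}ᶜ) ?_ (Set.Finite.infinite_compl (Set.finite_singleton 0))
    intro s hs
    show (lin (t • w) z F).IsRoot s
    rw [Polynomial.IsRoot.def, lin_eval, add_comm (t • w) (s • z)]
    exact h2 s t hs F hF
  rw [add_comm (s • z) (t • w), ← lin_eval, h3, Polynomial.eval_zero]

end Pool.Agent.Lib.MP_776403_ag.SD.P2
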