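import Pool.Agent.Lib.MP_776403_ag.SD.P2.Base

/-!
# LEMMA I, part P2: the second fundamental form
-/

set_option autoImplicit false

open MvPolynomial

noncomputable section

namespace Pool.Agent.Lib.MP_776403_ag.SD.P2

variable {N : ℕ}

/-- The second derivative of `G` in the directions `w`, `w'`. -/
def Hs (G : Sx N) (w w' : Fin (N + 1) → Sx N) : Sx N :=
  ∑ i, ∑ j, w i * w' j * pderiv i (pderiv j G)

/-- The vector of `T_z` in `span (x, v)`. -/
def ww (F0 : Sx N) (x v : Vx N) : Fin (N + 1) → Sx N :=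
  fun i => DD x F0 * C (v i) - DD v F0 * C (x i)

theorem DD_mul (v : Vx N) (F G : Sx N) : DD v (F * G) = F * DD v G + G * DD v F := by
  rw [Derivation.leibniz, smul_eq_mul, smul_eq_mul]

theorem DD_DD (v w : Vx N) (G : Sx N) :
    DD v (DD w G) = ∑ i, ∑ j, C (v i) * C (w j) * pderiv i (pderiv j G) := by
  rw [DD_eq]
  refine Finset.sum_congr rfl fun i _ => ?_
  rw [DD_eq, map_sum, Finset.mul_sum]
  refine Finset.sum_congr rfl fun j _ => ?_
  rw [pderiv_C_mul]
  ring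

theorem Hs_ww (F0 G : Sx N) (x v x' v' : Vx N) : Hs G (ww F0 x v) (ww F0 x' v') =
    DD x F0 * DD x' F0 * DD v (DD v' G) - DD x F0 * DD v' F0 * DD v (DD x' G) -
    DD v F0 * DD x' F0 * DD x (DD v' G) + DD v F0 * DD v' F0 * DD x (DD x' G) := by
  rw [DD_DD, DD_DD, DD_DD, DD_DD]
  simp only [Finset.mul_sum]
  rw [← Finset.sum_sub_distrib, ← Finset.sum_sub_distrib, ← Finset.sum_add_distrib]
  refine Finset.sum_congr rfl fun i _ => ?_
  rw [← Finset.sum_sub_distrib, ← Finset.sum_sub_distrib, ← Finset.sum_add_distrib]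
  refine Finset.sum_congr rfl fun j _ => ?_
  unfold ww
  ring

theorem mul_mem_cancel {I : Ideal (Sx N)} (hI : I.IsPrime) {a b : Sx N} (ha : a ∉ I)
    (h : a * b ∈ I) : b ∈ I :=
  (hI.mem_or_mem h).resolve_left ha

theorem rel_tan {I : Ideal (Sx N)} {x v : Vx N} (hR : Rel I x v) {F0 : Sx N} (hF0 : F0 ∈ I)
    {G : Sx N} (hG : G ∈ I) : DD x F0 * DD v G - DD v F0 * DD x G ∈ I := by
  have h := hR F0 hF0 G hG
  rwa [mul_comm (DD x G)] at h

/-- The second derivative vanishes in two general directions. -/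
theorem hs_mem {I : Ideal (Sx N)} (hI : I.IsPrime) {x v x' v' : Vx N} {F0 : Sx N} (hF0 : F0 ∈ I)
    (hp : DD x F0 ∉ I) (hp' : DD x' F0 ∉ I) (hR : Rel I x v) (hR' : Rel I x' v')
    (hG1 : ∃ G1 ∈ I, DD x F0 * DD x' G1 - DD x G1 * DD x' F0 ∉ I) :
    ∀ G ∈ I, Hs G (ww F0 x v) (ww F0 x' v') ∈ I := by
  have key : ∀ G ∈ I,
      DD x' F0 * ((DD x' F0 * DD v' (DD x F0) - DD v' F0 * DD x' (DD x F0)) * DD v F0 -
        (DD x' F0 * DD v' (DD v F0) - DD v' F0 * DD x' (DD v F0)) * DD x F0) * DD x G +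
        DD x F0 * DD x' F0 * Hs G (ww F0 x v) (ww F0 x' v') ∈ I ∧
      DD x F0 * ((DD x F0 * DD v (DD x' F0) - DD v F0 * DD x (DD x' F0)) * DD v' F0 -
        (DD x F0 * DD v (DD v' F0) - DD v F0 * DD x (DD v' F0)) * DD x' F0) * DD x' G +
        DD x F0 * DD x' F0 * Hs G (ww F0 x v) (ww F0 x' v') ∈ I := by
    intro G hG
    have h1 := rel_tan hR hF0 hG
    have h2 := rel_tan hR' hF0 hG
    have h3 := rel_tan hR' hF0 h1
    have h4 := rel_tan hR hF0 h2
    rw [Hs_ww]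
    rw [← Ideal.Quotient.eq_zero_iff_mem] at h1 h2 h3 h4
    constructor
    · rw [← Ideal.Quotient.eq_zero_iff_mem]
      simp only [map_sub, map_add, map_mul, DD_mul] at h1 h2 h3 h4 ⊢
      rw [DD_comm v v' G, DD_comm v x' G, DD_comm x v' G, DD_comm x x' G]
      linear_combination (Ideal.Quotient.mk I (DD x F0) * Ideal.Quotient.mk I (DD x' F0)) * h3 -
        (Ideal.Quotient.mk I (DD x' F0) * (Ideal.Quotient.mk I (DD x' F0) *
          Ideal.Quotient.mk I (DD v' (DD x F0)) - Ideal.Quotient.mk I (DD v' F0) *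
          Ideal.Quotient.mk I (DD x' (DD x F0)))) * h1
    · rw [← Ideal.Quotient.eq_zero_iff_mem]
      simp only [map_sub, map_add, map_mul, DD_mul] at h1 h2 h3 h4 ⊢
      linear_combination (Ideal.Quotient.mk I (DD x F0) * Ideal.Quotient.mk I (DD x' F0)) * h4 -
        (Ideal.Quotient.mk I (DD x F0) * (Ideal.Quotient.mk I (DD x F0) *
          Ideal.Quotient.mk I (DD v (DD x' F0)) - Ideal.Quotient.mk I (DD v F0) *
          Ideal.Quotient.mk I (DD x (DD x' F0)))) * h2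
  obtain ⟨G1, hG1, hne⟩ := hG1
  have hA : DD x' F0 * ((DD x' F0 * DD v' (DD x F0) - DD v' F0 * DD x' (DD x F0)) * DD v F0 -
        (DD x' F0 * DD v' (DD v F0) - DD v' F0 * DD x' (DD v F0)) * DD x F0) ∈ I := by
    obtain ⟨k1, k2⟩ := key F0 hF0
    obtain ⟨k3, k4⟩ := key G1 hG1
    refine mul_mem_cancel hI hne ?_
    rw [← Ideal.Quotient.eq_zero_iff_mem] at k1 k2 k3 k4 ⊢
    simp only [map_sub, map_add, map_mul] at k1 k2 k3 k4 ⊢
    linear_combination (Ideal.Quotient.mk I (DD x' G1)) * k1 -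
      (Ideal.Quotient.mk I (DD x' G1)) * k2 - (Ideal.Quotient.mk I (DD x' F0)) * k3 +
      (Ideal.Quotient.mk I (DD x' F0)) * k4
  intro G hG
  have k := (key G hG).1
  have k2 : DD x F0 * DD x' F0 * Hs G (ww F0 x v) (ww F0 x' v') ∈ I :=
    (Ideal.add_mem_iff_right I (I.mul_mem_right _ hA)).mp k
  exact mul_mem_cancel hI (fun hmem => (hI.mem_or_mem hmem).elim hp hp') k2

end Pool.Agent.Lib.MP_776403_ag.SD.P2
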