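import Pool.Agent.Lib.MP_776403_ag.SD.P2.Hk

/-!
# LEMMA I, part P2: a line that does not meet the general tangent space
-/

set_option autoImplicit false

open MvPolynomial

noncomputable section

namespace Pool.Agent.Lib.MP_776403_ag.SD.P2

/-- (P2) Through a general point `x` of `X` there is a line `l` in `X` with `T_z X ∩ l = ∅` for general
`z`, if there is a line through a general point. -/
def S_P2 : Prop :=
  ∀ (N c : ℕ) (I : Ideal (Sx N)), 2 ≤ c → 2 ≤ N → I.IsPrime → IsHom I →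
    (∀ F ∈ I, F.IsHomogeneous 1 → F = 0) → Smooth I c →
    (∃ g ∉ I, ∀ x ∈ zer I, x ≠ 0 → eval x g ≠ 0 → ∃ v, IsLine I x v) →
    ∀ g ∉ I, ∃ x ∈ zer I, x ≠ 0 ∧ eval x g ≠ 0 ∧ ∃ v, IsLine I x v ∧
      ∃ F ∈ I, ∃ G ∈ I, DD x F * DD v G - DD x G * DD v F ∉ I

variable {N : ℕ}

/-- The linear form with the coefficients `a`. -/
def lf (a : Vx N) : Sx N := ∑ i, C (a i) * X i

theorem eval_lf (a y : Vx N) : eval y (lf a) = ∑ i, a i * y i := by
  unfold lf
  rw [map_sum]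
  refine Finset.sum_congr rfl fun i _ => ?_
  rw [map_mul, eval_C, eval_X]

theorem lf_hom (a : Vx N) : (lf a).IsHomogeneous 1 := by
  unfold lf
  refine (homogeneousSubmodule (Fin (N + 1)) ℂ 1).sum_mem fun i _ => ?_
  have h := (isHomogeneous_C (Fin (N + 1)) (a i)).mul (isHomogeneous_X ℂ i)
  rwa [zero_add] at h

theorem lf_notMem {I : Ideal (Sx N)} (hnd : ∀ F ∈ I, F.IsHomogeneous 1 → F = 0) {a : Vx N}
    (ha : a ≠ 0) : lf a ∉ I := by
  intro h
  have h1 := hnd _ h (lf_hom a)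
  refine ha (funext fun i => ?_)
  have h2 := eval_lf a (Pi.single i 1)
  rw [h1, map_zero, Finset.sum_eq_single i] at h2
  · rw [Pi.single_eq_same, mul_one] at h2
    exact h2.symm
  · intro b _ hb
    rw [Pi.single_eq_of_ne hb, mul_zero]
  · exact fun h => absurd (Finset.mem_univ i) h

theorem exists_pt {I : Ideal (Sx N)} (hI : I.IsPrime) (hIh : IsHom I)
    (hnd : ∀ F ∈ I, F.IsHomogeneous 1 → F = 0) {P : Sx N} (hP : P ∉ I) :
    ∃ z ∈ zer I, z ≠ 0 ∧ eval z P ≠ 0 := by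
  by_contra hcon
  push Not at hcon
  have h1 : P * X 0 ∈ I := by
    refine (tNull N I hI hIh).1 _ fun z hz => ?_
    rw [map_mul, eval_X]
    by_cases h0 : z = 0
    · rw [h0]
      simp
    · rw [hcon z hz h0, zero_mul]
  rcases hI.mem_or_mem h1 with h2 | h2
  · exact hP h2
  · exact X_ne_zero (0 : Fin (N + 1)) (hnd _ h2 (isHomogeneous_X ℂ 0))

theorem notMem_mul {I : Ideal (Sx N)} (hI : I.IsPrime) {a b : Sx N} (ha : a ∉ I) (hb : b ∉ I) :
    a * b ∉ I := fun h => (hI.mem_or_mem h).elim ha hb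

theorem gen_pos {c : ℕ} {I : Ideal (Sx N)} (hc : 2 ≤ c) (hI : I.IsPrime) (hIh : IsHom I)
    (hnd : ∀ F ∈ I, F.IsHomogeneous 1 → F = 0) (hS : Smooth I c) {F0 : Sx N} {x : Vx N}
    (hp : DD x F0 ∉ I) :
    ∃ g ∉ I, ∀ x' : Vx N, eval x' g ≠ 0 → DD x' F0 ∉ I ∧
      ∃ G1 ∈ I, DD x F0 * DD x' G1 - DD x G1 * DD x' F0 ∉ I := by
  obtain ⟨z, hz, hz0, hpz⟩ := exists_pt hI hIh hnd hp
  rcases hS z hz hz0 with ⟨F, f, h, e, hF, -, -, hli, -⟩
  have hc0 : 0 < c := by omega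
  have hc1 : 1 < c := by omega
  -- the linear forms
  have hex : ∃ j, (eval z (DD x F0)) • grad (F j) z - (eval z (DD x (F j))) • grad F0 z ≠ 0 := by
    by_contra hcon
    push Not at hcon
    have h0 := sub_eq_zero.mp (hcon ⟨0, hc0⟩)
    have h1 := sub_eq_zero.mp (hcon ⟨1, hc1⟩)
    have hne : (⟨0, hc0⟩ : Fin c) ≠ ⟨1, hc1⟩ := by
      intro h
      have := congrArg Fin.val h
      simp at this
    have hinj : Function.Injective ![(⟨0, hc0⟩ : Fin c), ⟨1, hc1⟩] := by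
      intro a b hab
      fin_cases a <;> fin_cases b
      · rfl
      · exact absurd hab hne
      · exact absurd hab hne.symm
      · rfl
    have e : ![grad (F ⟨0, hc0⟩) z, grad (F ⟨1, hc1⟩) z] =
        (fun i => grad (F i) z) ∘ ![(⟨0, hc0⟩ : Fin c), ⟨1, hc1⟩] := by
      funext i
      fin_cases i <;> rfl
    have h2 := hli.comp _ hinj
    rw [← e, LinearIndependent.pair_iff] at h2
    have h3 := h2 (eval z (DD x (F ⟨1, hc1⟩)) * eval z (DD x F0))
      (-(eval z (DD x (F ⟨0, hc0⟩)) * eval z (DD x F0))) (by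
        rw [neg_smul, mul_smul, mul_smul, h0, h1, smul_smul, smul_smul, mul_comm, add_neg_cancel])
    have h4 : eval z (DD x (F ⟨1, hc1⟩)) = 0 := (mul_eq_zero.mp h3.1).resolve_right hpz
    rw [h4, zero_smul] at h1
    have h5 : grad (F ⟨1, hc1⟩) z = 0 := (smul_eq_zero.mp h1).resolve_left hpz
    have h6 := hli.ne_zero ⟨1, hc1⟩
    exact h6 h5
  obtain ⟨j, hj⟩ := hex
  have hg0 : grad F0 z ≠ 0 := by
    intro h0
    rw [eval_DD, h0] at hpz
    simp at hpz
  refine ⟨lf ((eval z (DD x F0)) • grad (F j) z - (eval z (DD x (F j))) • grad F0 z) *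
    lf (grad F0 z), notMem_mul hI (lf_notMem hnd hj) (lf_notMem hnd hg0), fun x' hx' => ?_⟩
  rw [map_mul, eval_lf, eval_lf] at hx'
  obtain ⟨h1, h2⟩ := mul_ne_zero_iff.mp hx'
  constructor
  · intro hmem
    refine h2 ?_
    have h3 := hz _ hmem
    rw [eval_DD] at h3
    rw [← h3]
    exact Finset.sum_congr rfl fun i _ => mul_comm _ _
  · refine ⟨F j, (hF j).1, fun hmem => h1 ?_⟩
    have h3 := hz _ hmem
    rw [map_sub, map_mul, map_mul, eval_DD x' z (F j), eval_DD x' z F0] at h3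
    rw [← h3, Finset.mul_sum, Finset.mul_sum, ← Finset.sum_sub_distrib]
    refine Finset.sum_congr rfl fun i _ => ?_
    rw [Pi.sub_apply, Pi.smul_apply, Pi.smul_apply, smul_eq_mul, smul_eq_mul]
    ring

/-- The function field of the cone. -/
abbrev KK (I : Ideal (Sx N)) [I.IsPrime] : Type := FractionRing (Sx N ⧸ I)

/-- A polynomial as an element of the function field. -/
def io (I : Ideal (Sx N)) [I.IsPrime] : Sx N →+* KK I :=
  (algebraMap (Sx N ⧸ I) (KK I)).comp (Ideal.Quotient.mk I)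

theorem io_eq_zero {I : Ideal (Sx N)} [I.IsPrime] {F : Sx N} : io I F = 0 ↔ F ∈ I := by
  unfold io
  rw [RingHom.comp_apply, FaithfulSMul.algebraMap_eq_zero_iff, Ideal.Quotient.eq_zero_iff_mem]

/-- The vectors of `T_z` on the lines through general points. -/
def MM (I : Ideal (Sx N)) [I.IsPrime] (F0 g : Sx N) : Submodule (KK I) (Fin (N + 1) → KK I) :=
  Submodule.span (KK I) {w | ∃ x v : Vx N, x ∈ zer I ∧ eval x g ≠ 0 ∧ DD x F0 ∉ I ∧
    Rel I x v ∧ w = fun i => io I (ww F0 x v i)}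

/-- The second derivative as a linear map of its second argument. -/
def LG (I : Ideal (Sx N)) [I.IsPrime] (G : Sx N) (w : Fin (N + 1) → Sx N) :
    (Fin (N + 1) → KK I) →ₗ[KK I] KK I :=
  ∑ i, ∑ j, (io I (w i * pderiv i (pderiv j G))) • LinearMap.proj j

theorem LG_io {I : Ideal (Sx N)} [I.IsPrime] (G : Sx N) (w w' : Fin (N + 1) → Sx N) :
    LG I G w (fun i => io I (w' i)) = io I (Hs G w w') := by
  unfold LG Hs
  rw [map_sum, LinearMap.sum_apply]
  refine Finset.sum_congr rfl fun i _ => ?_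
  rw [map_sum, LinearMap.sum_apply]
  refine Finset.sum_congr rfl fun j _ => ?_
  rw [LinearMap.smul_apply, LinearMap.proj_apply, smul_eq_mul, map_mul, map_mul, map_mul]
  ring

/-- A general point and a line through it with `W(μ) = 0`. -/
theorem good_line {c : ℕ} {I : Ideal (Sx N)} (hc : 2 ≤ c) (hI : I.IsPrime) (hIh : IsHom I)
    (hnd : ∀ F ∈ I, F.IsHomogeneous 1 → F = 0) (hS : Smooth I c) {F0 : Sx N} (hF0 : F0 ∈ I)
    {g : Sx N} (hg : g ∉ I) (hp : ∀ x : Vx N, eval x g ≠ 0 → DD x F0 ∉ I)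
    (hL : ∀ x ∈ zer I, x ≠ 0 → eval x g ≠ 0 → ∃ v, IsLine I x v ∧ Rel I x v) :
    ∃ x v : Vx N, DD x F0 ∉ I ∧ IsLine I x v ∧ Rel I x v ∧
      ∀ G ∈ I, Hs G (ww F0 x v) (ww F0 x v) ∈ I := by
  have := hI
  have hex : ∃ n, ∃ g' ∉ I, Module.finrank (KK I) (MM I F0 g') = n := ⟨_, g, hg, rfl⟩
  classical
  obtain ⟨g1, hg1, hn⟩ := Nat.find_spec hex
  have hmin : ∀ g' ∉ I, Module.finrank (KK I) (MM I F0 g1) ≤
      Module.finrank (KK I) (MM I F0 g') := fun g' hg' => by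
    rw [hn]
    exact Nat.find_min' hex ⟨g', hg', rfl⟩
  obtain ⟨x, hx, hx0, hxg⟩ := exists_pt hI hIh hnd (notMem_mul hI hg hg1)
  rw [map_mul] at hxg
  obtain ⟨hxg, hxg1⟩ := mul_ne_zero_iff.mp hxg
  obtain ⟨v, hl, hR⟩ := hL x hx hx0 hxg
  obtain ⟨g2, hg2, hgen⟩ := gen_pos hc hI hIh hnd hS (hp x hxg)
  refine ⟨x, v, hp x hxg, hl, hR, fun G hG => ?_⟩
  have hle : MM I F0 (g1 * g2) ≤ MM I F0 g1 := by
    refine Submodule.span_mono ?_
    rintro w ⟨x', v', h1, h2, h3, h4, h5⟩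
    rw [map_mul] at h2
    exact ⟨x', v', h1, left_ne_zero_of_mul h2, h3, h4, h5⟩
  have heq : MM I F0 (g1 * g2) = MM I F0 g1 :=
    Submodule.eq_of_le_of_finrank_le hle (hmin _ (notMem_mul hI hg1 hg2))
  have hmem : (fun i => io I (ww F0 x v i)) ∈ MM I F0 (g1 * g2) := by
    rw [heq]
    exact Submodule.subset_span ⟨x, v, hx, hxg1, hp x hxg, hR, rfl⟩
  have hker : MM I F0 (g1 * g2) ≤ LinearMap.ker (LG I G (ww F0 x v)) := by
    refine Submodule.span_le.mpr ?_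
    rintro w ⟨x', v', h1, h2, h3, h4, rfl⟩
    rw [map_mul] at h2
    show LG I G (ww F0 x v) _ = 0
    rw [LG_io, io_eq_zero]
    exact hs_mem hI hF0 (hp x hxg) h3 hR h4 (hgen x' (right_ne_zero_of_mul h2)).2 G hG
  have h5 : LG I G (ww F0 x v) (fun i => io I (ww F0 x v i)) = 0 := hker hmem
  rwa [LG_io, io_eq_zero] at h5

/-- A linear form vanishing on two vectors. -/
theorem exists_lf (hN : 2 ≤ N) (x v : Vx N) : ∃ a : Vx N, a ≠ 0 ∧ ∑ i, a i * x i = 0 ∧
    ∑ i, a i * v i = 0 := by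
  let L : (Fin (N + 1) → ℂ) →ₗ[ℂ] (Fin 2 → ℂ) :=
    LinearMap.pi ![∑ i, x i • LinearMap.proj i, ∑ i, v i • LinearMap.proj i]
  have h : LinearMap.ker L ≠ ⊥ := LinearMap.ker_ne_bot_of_finrank_lt (by
    rw [Module.finrank_fin_fun, Module.finrank_fin_fun]
    omega)
  obtain ⟨a, ha, ha0⟩ := (Submodule.ne_bot_iff _).mp h
  refine ⟨a, ha0, ?_, ?_⟩
  · have h1 := congrFun (LinearMap.mem_ker.mp ha) 0
    have h2 : L a 0 = ∑ i, x i * a i := by
      show (∑ i, x i • (LinearMap.proj i : (Fin (N + 1) → ℂ) →ₗ[ℂ] ℂ)) a = _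
      rw [LinearMap.sum_apply]
      rfl
    rw [h2] at h1
    exact Eq.trans (Finset.sum_congr rfl fun i _ => mul_comm _ _) h1
  · have h1 := congrFun (LinearMap.mem_ker.mp ha) 1
    have h2 : L a 1 = ∑ i, v i * a i := by
      show (∑ i, v i • (LinearMap.proj i : (Fin (N + 1) → ℂ) →ₗ[ℂ] ℂ)) a = _
      rw [LinearMap.sum_apply]
      rfl
    rw [h2] at h1
    exact Eq.trans (Finset.sum_congr rfl fun i _ => mul_comm _ _) h1

/-- The line through a general point `z`. -/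
theorem final {c : ℕ} {I : Ideal (Sx N)} (hc : 2 ≤ c) (hN : 2 ≤ N) (hI : I.IsPrime)
    (hIh : IsHom I) (hnd : ∀ F ∈ I, F.IsHomogeneous 1 → F = 0) (hS : Smooth I c) {F0 : Sx N}
    (hF0 : F0 ∈ I) {g : Sx N} (hg : g ∉ I) {x v : Vx N} (hp : DD x F0 ∉ I) (hl : IsLine I x v)
    (hR : Rel I x v) (hH : ∀ G ∈ I, Hs G (ww F0 x v) (ww F0 x v) ∈ I)
    (hL : ∀ z ∈ zer I, z ≠ 0 → eval z g ≠ 0 → ∀ w, IsLine I z w → Rel I z w) : False := by
  obtain ⟨g2, hg2, hgen⟩ := gen_pos hc hI hIh hnd hS hp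
  obtain ⟨a, ha, hax, hav⟩ := exists_lf hN x v
  obtain ⟨z, hz, hz0, hzP⟩ := exists_pt hI hIh hnd
    (notMem_mul hI (notMem_mul hI hg hg2) (notMem_mul hI hp (lf_notMem hnd ha)))
  rw [map_mul, map_mul, map_mul] at hzP
  obtain ⟨h1, h2⟩ := mul_ne_zero_iff.mp hzP
  obtain ⟨hzg, hzg2⟩ := mul_ne_zero_iff.mp h1
  obtain ⟨hzp, hza⟩ := mul_ne_zero_iff.mp h2
  rw [eval_lf] at hza
  -- the direction
  have hw0 : (eval z (DD x F0)) • v + (-eval z (DD v F0)) • x ≠ 0 := by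
    intro h0
    rw [add_comm] at h0
    exact hzp (LinearIndependent.pair_iff.mp hl.1 _ _ h0).2
  have hli : LinearIndependent ℂ ![z, (eval z (DD x F0)) • v + (-eval z (DD v F0)) • x] := by
    rw [LinearIndependent.pair_iff]
    intro s t hst
    have h3 : ∑ i, a i * (s • z + t • ((eval z (DD x F0)) • v + (-eval z (DD v F0)) • x)) i =
        s * (∑ i, a i * z i) + t * (eval z (DD x F0) * (∑ i, a i * v i) +
          (-eval z (DD v F0)) * (∑ i, a i * x i)) := by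
      simp only [Finset.mul_sum, ← Finset.sum_add_distrib]
      refine Finset.sum_congr rfl fun i _ => ?_
      simp only [Pi.add_apply, Pi.smul_apply, smul_eq_mul]
      ring
    rw [hst, hax, hav, mul_zero, mul_zero, add_zero, mul_zero, add_zero] at h3
    have h4 : s * (∑ i, a i * z i) = 0 := by
      rw [← h3]
      simp
    have hs : s = 0 := (mul_eq_zero.mp h4).resolve_right hza
    rw [hs, zero_smul, zero_add] at hst
    exact ⟨hs, (smul_eq_zero.mp hst).resolve_right hw0⟩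
  have hline : IsLine I z ((eval z (DD x F0)) • v + (-eval z (DD v F0)) • x) := by
    refine isLine_of hIh hli fun G hG k => ?_
    rw [← eval_hk]
    exact hz _ (hk_mem hI hR hF0 hp (hH F0 hF0) k G hG)
  have hRz := hL z hz hz0 hzg _ hline
  -- `μ` is constant
  have key : ∀ G ∈ I, DD x F0 * DD ((eval z (DD x F0)) • v + (-eval z (DD v F0)) • x) G -
      (C (eval z (DD x F0)) * DD v F0 - C (eval z (DD v F0)) * DD x F0) * DD x G ∈ I := by
    intro G hG
    have h3 := rel_tan hR hF0 hG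
    rw [DD_lin]
    have h4 := I.mul_mem_left (C (eval z (DD x F0))) h3
    refine (congrArg (· ∈ I) ?_).mp h4
    rw [C_neg]
    ring
  have hmu : C (eval z (DD x F0)) * DD v F0 - C (eval z (DD v F0)) * DD x F0 ∈ I := by
    obtain ⟨-, G1, hG1, hne⟩ := hgen z hzg2
    refine mul_mem_cancel hI hne ?_
    have h3 := hRz F0 hF0 G1 hG1
    have h4 := key F0 hF0
    have h5 := key G1 hG1
    rw [← Ideal.Quotient.eq_zero_iff_mem] at h3 h4 h5 ⊢
    simp only [map_sub, map_mul] at h3 h4 h5 ⊢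
    linear_combination (-(Ideal.Quotient.mk I (DD x F0))) * h3 -
      (Ideal.Quotient.mk I (DD z G1)) * h4 + (Ideal.Quotient.mk I (DD z F0)) * h5
  refine no_cone (by omega) hI hIh hnd hS hw0 fun G hG => ?_
  refine mul_mem_cancel hI hp ?_
  have h3 := I.add_mem (key G hG) (I.mul_mem_right (DD x G) hmu)
  rwa [sub_add_cancel] at h3

/-- (P2). -/
theorem p2 : S_P2 := by
  intro N c I hc hN hI hIh hnd hS hcov g hg
  by_contra hcon
  push Not at hcon
  obtain ⟨gL, hgL, hcov⟩ := hcov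
  obtain ⟨z, hz, hz0, -⟩ := exists_pt hI hIh hnd hg
  rcases hS z hz hz0 with ⟨F, f, h, e, hF, -, -, hli, -⟩
  have hc0 : 0 < c := by omega
  have h6 := hli.ne_zero ⟨0, hc0⟩
  have hg0 : grad (F ⟨0, hc0⟩) z ≠ 0 := h6
  have hF0 : F ⟨0, hc0⟩ ∈ I := (hF ⟨0, hc0⟩).1
  have hp : ∀ x : Vx N, eval x (lf (grad (F ⟨0, hc0⟩) z)) ≠ 0 → DD x (F ⟨0, hc0⟩) ∉ I := by
    intro x hx hmem
    refine hx ?_
    have h3 := hz _ hmem
    rw [eval_DD] at h3
    rw [eval_lf, ← h3]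
    exact Finset.sum_congr rfl fun i _ => mul_comm _ _
  obtain ⟨x, v, h1, h2, h3, h4⟩ := good_line (g := (gL * g) * lf (grad (F ⟨0, hc0⟩) z)) hc hI hIh
    hnd hS hF0 (notMem_mul hI (notMem_mul hI hgL hg) (lf_notMem hnd hg0))
    (fun x hx => by
      rw [map_mul] at hx
      exact hp x (right_ne_zero_of_mul hx))
    (fun x hx hx0 hxg => by
      rw [map_mul, map_mul] at hxg
      have h1 := left_ne_zero_of_mul hxg
      obtain ⟨v, hv⟩ := hcov x hx hx0 (left_ne_zero_of_mul h1)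
      exact ⟨v, hv, hcon x hx hx0 (right_ne_zero_of_mul h1) v hv⟩)
  exact final hc hN hI hIh hnd hS hF0 hg h1 h2 h3 h4 fun z hz hz0 hzg w hw =>
    hcon z hz hz0 hzg w hw

end Pool.Agent.Lib.MP_776403_ag.SD.P2
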